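import Pool.Agent.KS6_43.FP.Ring

/-!
# A weak `(n,d)`-ring in the sense of Mahdou with infinite small finitistic dimension

Let `B` be the local ring at the origin of the affine space of infinite dimension over `ℚ`, let `E`
be the direct sum of countably many copies of each `B/fB`, `0 ≠ f ∈ m`, and `R = B ⋉ E`.  No proper
nonzero ideal of `R` is finitely presented.  On the other hand `R ⊗ ·` is exact on the short exact
sequences of torsion-free `B`-modules and does not lower the projective dimension, and the ideals of
`B` generated by `n + 2` variables have projective dimension `n + 1` and a finite resolution.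
-/

set_option autoImplicit false

universe u

namespace Pool.Agent.Results.MP_682377_al.InfiniteFPD

open CategoryTheory

/-- `n`-presented modules: `0`-presented means finitely generated, and `M` is `(n+1)`-presented if
there is a surjection `R^k → M` whose kernel is `n`-presented. -/
def IsPresented (R : Type u) [CommRing R] : ℕ → ∀ (M : Type u) [AddCommGroup M] [Module R M], Prop
  | 0, M, _, _ => Module.Finite R M
  | n + 1, M, _, _ => ∃ (k : ℕ) (f : (Fin k → R) →ₗ[R] M), Function.Surjective f ∧
      IsPresented R n (LinearMap.ker f)

/-- Weak `(n,d)`-rings in the sense of Mahdou: `pd (R/I) ≤ d` for every ideal `I` for which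
`R/I` is `n`-presented. -/
def IsWeakMahdou (n d : ℕ) (R : Type u) [CommRing R] : Prop :=
  ∀ I : Ideal R, IsPresented R n (R ⧸ I) → HasProjectiveDimensionLE (ModuleCat.of R (R ⧸ I)) d

/-- `M` has a resolution `0 → P_m → ... → P_0 → M → 0` by finitely generated projectives. -/
def HasFiniteRes (R : Type u) [CommRing R] : ℕ → ∀ (M : Type u) [AddCommGroup M] [Module R M], Prop
  | 0, M, _, _ => Module.Finite R M ∧ Module.Projective R M
  | m + 1, M, _, _ => ∃ (P : Type u) (_ : AddCommGroup P) (_ : Module R P) (f : P →ₗ[R] M),
      Module.Finite R P ∧ Module.Projective R P ∧ Function.Surjective f ∧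
        HasFiniteRes R m (LinearMap.ker f)

/-- The small finitistic dimension. -/
noncomputable def fPD (R : Type u) [CommRing R] : WithBot ℕ∞ :=
  ⨆ (M : ModuleCat.{u} R) (_ : ∃ m : ℕ, HasFiniteRes R m M), projectiveDimension M

theorem isPresented_iff (R : Type u) [CommRing R] : ∀ (n : ℕ) (M : Type u) [AddCommGroup M]
    [Module R M], IsPresented R n M ↔ WeakRingsOfLargeFPD.IsPresented R n M := by
  intro n
  induction n with
  | zero => intro M _ _; exact Iff.rfl
  | succ n ih =>
    intro M _ _
    exact exists_congr fun k => exists_congr fun f => and_congr_right fun _ => ih _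

theorem hasFiniteRes_iff (R : Type u) [CommRing R] : ∀ (n : ℕ) (M : Type u) [AddCommGroup M]
    [Module R M], HasFiniteRes R n M ↔ WeakRingsOfLargeFPD.HasFiniteRes R n M := by
  intro n
  induction n with
  | zero => intro M _ _; exact Iff.rfl
  | succ n ih =>
    intro M _ _
    exact exists_congr fun P => exists_congr fun _ => exists_congr fun _ => exists_congr fun f =>
      and_congr_right fun _ => and_congr_right fun _ => and_congr_right fun _ => ih _

/-- **There is a commutative local ring which is a weak `(n,d)`-ring in the sense of Mahdou for all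
`n ≥ 2` and all `d ≥ 0`, and has infinite small finitistic dimension.** Hence for no `n ≥ 2` and
no `d` is the small finitistic dimension of the weak `(n,d)`-rings bounded. -/
theorem result : ∃ (R : Type) (_ : CommRing R), IsLocalRing R ∧
    (∀ n d : ℕ, 2 ≤ n → IsWeakMahdou n d R) ∧ fPD R = ⊤ := by
  refine ⟨WeakRingsOfLargeFPD.RR Pool.Agent.KS6_43.FP.BB, inferInstance, inferInstance,
    fun n d hn I hI => ?_, ?_⟩
  · refine WeakRingsOfLargeFPD.weak (B := Pool.Agent.KS6_43.FP.BB) ?_ n d hn I
      ((isPresented_iff _ n _).1 hI)
    intro h
    have := Pool.Agent.KS6_43.FP.xx_mem 0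
    rw [h, Ideal.mem_bot] at this
    exact Pool.Agent.KS6_43.FP.xx_ne 0 this
  · have h := Pool.Agent.KS6_43.FP.fpd_top Pool.Agent.KS6_43.FP.reg_BB
      Pool.Agent.KS6_43.FP.xx_mem
    rw [← h]
    unfold fPD WeakRingsOfLargeFPD.smallFPD
    refine iSup_congr fun M => ?_
    exact iSup_congr_Prop (exists_congr fun m => hasFiniteRes_iff _ m M) fun _ => rfl

end Pool.Agent.Results.MP_682377_al.InfiniteFPD
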